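import Mathlib
import Pool.Agent.Y203.Lat.Cont
import Pool.Agent.Y203.Lat.Virt

/-!
# Local extension of lattice actions: every sign character is an obstruction

Let `n ≥ 3`, let `Γ` be a subgroup of `SL(n,ℝ)` commensurable with `SL(n,ℤ)` and `χ : Γ → {±1}` a
nontrivial homomorphism. Then `γ · x = |x| ^ χ(γ) γ x / |γ x|` is a real analytic action of `Γ` on
`ℝ^n \ {0}` for which the unit sphere is invariant with the standard action. A subgroup `Δ` of
finite index of `Γ` has a (continuous) local extension to `SL(n,ℝ)` near the sphere only if `χ` is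
trivial on `Δ`, and then its action extends to a global action of `SL(n,ℝ)`.
-/

open scoped Manifold ContDiff Topology MatrixGroups
open Pool.Agent.Results.MP_20070e_gt.NoLocalExtension (E S toReal sphereAct HasLocalExtension
  Equivariant Pu incl isEmbedding_incl injective_mfderiv_incl)
open Pool.Agent.Y203.Lat

namespace Pool.Agent.Results.MP_20070e_gt.EverySignCharacter

/-- `SL(n,ℤ)` as a subgroup of `SL(n,ℝ)`. -/
def SLnZ (n : ℕ) : Subgroup SL(n, ℝ) := (toReal (n := n)).range

/-- `M` is a real analytic manifold modelled on `F` (Hausdorff, second countable), on which `Γ` acts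
by real analytic maps. -/
def AnalyticAction (Γ F M : Type) [Group Γ] [NormedAddCommGroup F] [NormedSpace ℝ F]
    [TopologicalSpace M] [ChartedSpace F M] [MulAction Γ M] : Prop :=
  IsManifold 𝓘(ℝ, F) ω M ∧ T2Space M ∧ SecondCountableTopology M ∧
    ∀ γ : Γ, ContMDiff 𝓘(ℝ, F) 𝓘(ℝ, F) ω (fun x : M => γ • x)

/-- `φ` is a real analytic embedding of the manifold `N` into the manifold `M`. -/
def AnalyticEmb (F' F : Type) [NormedAddCommGroup F'] [NormedSpace ℝ F'] [NormedAddCommGroup F]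
    [NormedSpace ℝ F] {N M : Type} [TopologicalSpace N] [ChartedSpace F' N] [TopologicalSpace M]
    [ChartedSpace F M] (φ : N → M) : Prop :=
  Topology.IsEmbedding φ ∧ ContMDiff 𝓘(ℝ, F') 𝓘(ℝ, F) ω φ ∧
    ∀ x, Function.Injective (mfderiv 𝓘(ℝ, F') 𝓘(ℝ, F) φ x)

/-- `φ` is a real analytic embedding of the sphere `S^k` into the `(k+1)`-manifold `M`. -/
def AnalyticSphereEmb {k : ℕ} {M : Type} [TopologicalSpace M] [ChartedSpace (E (k + 1)) M]
    (φ : S (k + 1) → M) : Prop :=
  AnalyticEmb (E k) (E (k + 1)) φ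

/-- The action of `Δ` on `M` extends, along `ι : Δ → G`, to a global continuous action of `G` on `M`
by real analytic maps. -/
def HasGlobalExtension {Δ G M : Type} (F : Type) [Group Δ] [Group G] [TopologicalSpace G]
    [NormedAddCommGroup F] [NormedSpace ℝ F] [TopologicalSpace M] [ChartedSpace F M]
    [MulAction Δ M] (ι : Δ →* G) : Prop :=
  ∃ θ : G × M → M, Continuous θ ∧ (∀ x, θ (1, x) = x) ∧
    (∀ g h x, θ (g, θ (h, x)) = θ (g * h, x)) ∧
    (∀ g, ContMDiff 𝓘(ℝ, F) 𝓘(ℝ, F) ω (fun x => θ (g, x))) ∧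
    ∀ (γ : Δ) (x : M), θ (ι γ, x) = γ • x

/-- **Main result.** Let `n = k + 1 ≥ 3`.
(1) Let `Γ ≤ SL(n,ℝ)` be commensurable with `SL(n,ℤ)` and `χ : Γ → {±1}` a nontrivial homomorphism.
There are a real analytic action of `Γ` on a real analytic `n`-manifold `M` and an invariant
analytically embedded sphere `S^(n-1)` with the standard action, such that the action does not
extend to a local action of `SL(n,ℝ)` near the sphere, not even to a continuous one. Moreover, for
each subgroup `Δ` of finite index of `Γ`, the action of `Δ` has no local extension if `χ` is not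
trivial on `Δ`, and it has a global extension if `χ` is trivial on `Δ`.
(2) Each `Γ` commensurable with `SL(n,ℤ)` has a subgroup of finite index with a nontrivial
homomorphism to `{±1}`. -/
theorem result (k : ℕ) (hk : 2 ≤ k) :
    (∀ Γ : Subgroup SL(k + 1, ℝ), Subgroup.Commensurable Γ (SLnZ (k + 1)) →
      ∀ χ : Γ →* ℤˣ, χ ≠ 1 →
        ∃ (M : Type) (_ : TopologicalSpace M) (_ : ChartedSpace (E (k + 1)) M)
          (_ : MulAction Γ M) (φ : S (k + 1) → M),
          AnalyticAction Γ (E (k + 1)) M ∧ AnalyticSphereEmb φ ∧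
          Equivariant Γ.subtype sphereAct φ ∧ ¬ HasLocalExtension Γ.subtype φ ∧
          ∀ Δ : Subgroup Γ, Δ.FiniteIndex →
            (¬ Δ ≤ χ.ker → ¬ HasLocalExtension (Γ.subtype.comp Δ.subtype) φ) ∧
            (Δ ≤ χ.ker → HasGlobalExtension (M := M) (E (k + 1)) (Γ.subtype.comp Δ.subtype))) ∧
    (∀ Γ : Subgroup SL(k + 1, ℝ), Subgroup.Commensurable Γ (SLnZ (k + 1)) →
      ∃ Γ' : Subgroup SL(k + 1, ℝ), Γ' ≤ Γ ∧ Γ'.relIndex Γ ≠ 0 ∧
        Subgroup.Commensurable Γ' (SLnZ (k + 1)) ∧ ∃ χ : Γ' →* ℤˣ, χ ≠ 1) := by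
  obtain ⟨m, rfl⟩ := Nat.exists_eq_add_of_le' hk
  refine ⟨fun Γ hΓ χ hχ => ?_, fun Γ hΓ => exists_virtual_char (m := m + 1) Γ hΓ⟩
  have hroots : HasRoots Γ.subtype := hasRoots_of_relIndex Γ hΓ.1
  refine ⟨Pu (m + 3), inferInstance, inferInstance, twistAct Γ.subtype χ, incl (m + 3),
    ⟨inferInstance, inferInstance, inferInstance, fun γ => contMDiff_twp (χ γ) (Γ.subtype γ)⟩,
    ⟨isEmbedding_incl, contMDiff_incl', injective_mfderiv_incl⟩,
    fun γ x => incl_twp _ _ _, no_extension Γ.subtype hroots χ hχ, fun Δ hΔ => ⟨fun hne h => ?_,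
      fun hle => ?_⟩⟩
  · have hχ' : χ.comp Δ.subtype ≠ 1 := by
      intro hcon
      apply hne
      intro γ hγ
      have h1 := DFunLike.congr_fun hcon ⟨γ, hγ⟩
      exact h1
    obtain ⟨U, W, θ, a1, a2, a3, a4, a5, a6, a7, a8, a9⟩ := h
    exact no_extension (Γ.subtype.comp Δ.subtype) (hroots.comp Δ hΔ) (χ.comp Δ.subtype) hχ'
      ⟨U, W, θ, a1, a2, a3, a4, a5, a6, a7, a8, fun γ x hx => a9 γ x hx⟩
  · refine ⟨fun p => twp 1 p.1 p.2, continuous_twp_one, fun x => twp_one x, fun g h x => ?_,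
      fun g => ?_, fun γ x => ?_⟩
    · have h1 := twp_mul 1 1 g h x
      rw [mul_one] at h1
      exact h1.symm
    · have h1 := contMDiff_twp 1 g
      rw [Units.val_one] at h1
      exact h1
    · change twp 1 (Γ.subtype (γ : Γ)) x = twp ((χ (γ : Γ) : ℤˣ) : ℤ) (Γ.subtype (γ : Γ)) x
      have h1 : χ (γ : Γ) = 1 := hle γ.2
      rw [h1, Units.val_one]

end Pool.Agent.Results.MP_20070e_gt.EverySignCharacter
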